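import Mathlib
import Pool.Graph.R_seed8.Helper192.Hardy.G

/-!
# The torus `T^ι`: characters, Haar measure, trigonometric polynomials
-/

set_option autoImplicit false

open MeasureTheory AddCircle Filter Topology
open scoped ENNReal
open Pool.Agent.Helper192.Hp

namespace Pool.Agent.KS6_66.HpT

section chars

variable {ι : Type}

/-- `x ↦ Σ_i α_i x_i` -/
noncomputable def lin (α : ι →₀ ℤ) : (ι → TT) →+ TT where
  toFun := fun x => α.sum (fun i k => k • x i)
  map_zero' := by simp [Finsupp.sum]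
  map_add' := fun x y => by
    simp only [Finsupp.sum, Pi.add_apply, smul_add, Finset.sum_add_distrib]

theorem lin_apply (α : ι →₀ ℤ) (x : ι → TT) : lin α x = α.sum (fun i k => k • x i) := rfl

theorem lin_cont (α : ι →₀ ℤ) : Continuous (lin α) := by
  show Continuous (fun x : ι → TT => α.sum (fun i k => k • x i))
  unfold Finsupp.sum
  fun_prop

theorem lin_zero (x : ι → TT) : lin 0 x = 0 := by
  rw [lin_apply, Finsupp.sum_zero_index]

theorem lin_add (α β : ι →₀ ℤ) (x : ι → TT) : lin (α + β) x = lin α x + lin β x := by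
  simp only [lin_apply]
  exact Finsupp.sum_add_index' (fun i => zero_smul _ _) (fun i a b => add_smul _ _ _)

theorem lin_neg (α : ι →₀ ℤ) (x : ι → TT) : lin (-α) x = - lin α x := by
  have h := lin_add α (-α) x
  rw [add_neg_cancel, lin_zero] at h
  exact (neg_eq_of_add_eq_zero_right h.symm).symm

theorem lin_nsmul (k : ℕ) (α : ι →₀ ℤ) (x : ι → TT) : lin (k • α) x = k • lin α x := by
  induction k with
  | zero => simp [lin_zero]
  | succ k ih => rw [succ_nsmul, lin_add, ih, succ_nsmul]

theorem lin_single [DecidableEq ι] (α : ι →₀ ℤ) (i : ι) (s : TT) : lin α (Pi.single i s) = α i • s := by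
  rw [lin_apply, Finsupp.sum]
  rw [Finset.sum_eq_single i]
  · rw [Pi.single_eq_same]
  · intro j _ hj
    rw [Pi.single_eq_of_ne hj, smul_zero]
  · intro h
    rw [Finsupp.notMem_support_iff.mp h, zero_smul]

theorem lin_surj {α : ι →₀ ℤ} (hα : α ≠ 0) : Function.Surjective (lin α) := by
  classical
  obtain ⟨i, hi⟩ := DFunLike.ne_iff.mp hα
  intro t
  have hi' : α i ≠ 0 := hi
  refine ⟨Pi.single i (DivisibleBy.div t (α i)), ?_⟩
  rw [lin_single]
  exact DivisibleBy.div_cancel t hi'

/-- the character `x ↦ exp(i Σ α_i x_i)` -/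
noncomputable def chi (α : ι →₀ ℤ) : C(ι → TT, ℂ) :=
  ⟨fun x => fourier 1 (lin α x), (map_continuous _).comp (lin_cont α)⟩

theorem chi_apply (α : ι →₀ ℤ) (x : ι → TT) : chi α x = fourier 1 (lin α x) := rfl

theorem fourier_one_add (x y : TT) : (fourier 1 (x + y) : ℂ) = fourier 1 x * fourier 1 y := by
  rw [fourier_apply, smul_add, toCircle_add, Circle.coe_mul, ← fourier_apply, ← fourier_apply]

theorem fourier_one_nsmul (k : ℕ) (x : TT) : (fourier 1 (k • x) : ℂ) = fourier (k : ℤ) x := by
  rw [fourier_apply, fourier_apply, one_smul, natCast_zsmul]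

theorem fourier_one_neg (x : TT) : (fourier 1 (-x) : ℂ) = (starRingEnd ℂ) (fourier 1 x) := by
  rw [← fourier_neg, fourier_apply, fourier_apply]
  simp

theorem chi_zero (x : ι → TT) : chi 0 x = 1 := by
  rw [chi_apply, lin_zero]
  simp

theorem chi_add (α β : ι →₀ ℤ) (x : ι → TT) : chi (α + β) x = chi α x * chi β x := by
  rw [chi_apply, lin_add, fourier_one_add, ← chi_apply, ← chi_apply]

theorem chi_add_apply (α : ι →₀ ℤ) (x y : ι → TT) : chi α (x + y) = chi α x * chi α y := by
  rw [chi_apply, map_add, fourier_one_add, ← chi_apply, ← chi_apply]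

theorem chi_neg (α : ι →₀ ℤ) (x : ι → TT) : chi (-α) x = (starRingEnd ℂ) (chi α x) := by
  rw [chi_apply, lin_neg, fourier_one_neg, ← chi_apply]

theorem chi_norm (α : ι →₀ ℤ) (x : ι → TT) : ‖chi α x‖ = 1 := by
  rw [chi_apply, fourier_one_norm]

theorem chi_nsmul (k : ℕ) (α : ι →₀ ℤ) (x : ι → TT) : chi (k • α) x = fourier (k : ℤ) (lin α x) := by
  rw [chi_apply, lin_nsmul, fourier_one_nsmul]

theorem chi_neg_mul (α : ι →₀ ℤ) (x : ι → TT) : chi (-α) x * chi α x = 1 := by
  rw [← chi_add, neg_add_cancel, chi_zero]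

open Algebra in
/-- the star algebra generated by the characters -/
noncomputable def chiAlg (ι : Type) : StarSubalgebra ℂ C(ι → TT, ℂ) where
  toSubalgebra := Algebra.adjoin ℂ (Set.range (chi (ι := ι)))
  star_mem' := by
    change Algebra.adjoin ℂ (Set.range chi) ≤ star (Algebra.adjoin ℂ (Set.range chi))
    refine adjoin_le ?_
    rintro - ⟨n, rfl⟩
    exact subset_adjoin ⟨-n, by
      ext x
      rw [chi_neg]
      rfl⟩

theorem chiAlg_coe (ι : Type) : Subalgebra.toSubmodule (chiAlg ι).toSubalgebra =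
    Submodule.span ℂ (Set.range (chi (ι := ι))) := by
  apply Algebra.adjoin_eq_span_of_subset
  refine Set.Subset.trans ?_ Submodule.subset_span
  intro x hx
  refine Submonoid.closure_induction (fun _ => id) ⟨0, ?_⟩ ?_ hx
  · ext1 z
    exact chi_zero z
  · rintro - - - - ⟨m, rfl⟩ ⟨n, rfl⟩
    refine ⟨m + n, ?_⟩
    ext1 z
    exact chi_add m n z

theorem chiAlg_sep (ι : Type) : (chiAlg ι).SeparatesPoints := by
  classical
  intro x y hxy
  obtain ⟨i, hi⟩ := Function.ne_iff.mp hxy
  refine ⟨_, ⟨chi (Finsupp.single i 1), Algebra.subset_adjoin ⟨Finsupp.single i 1, rfl⟩, rfl⟩, ?_⟩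
  dsimp only
  rw [chi_apply, chi_apply, lin_apply, lin_apply, Finsupp.sum_single_index (h := fun i k => k • x i) (zero_smul _ _),
    Finsupp.sum_single_index (h := fun i k => k • y i) (zero_smul _ _), one_smul, one_smul, fourier_apply, fourier_apply,
    one_smul, one_smul]
  intro h
  exact hi (AddCircle.injective_toCircle (by positivity) (Subtype.ext h))

theorem span_chi_dense (ι : Type) : (Submodule.span ℂ (Set.range (chi (ι := ι)))).topologicalClosure = ⊤ := by
  rw [← chiAlg_coe]
  exact congr_arg (Subalgebra.toSubmodule <| StarSubalgebra.toSubalgebra ·)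
    (ContinuousMap.starSubalgebra_topologicalClosure_eq_top_of_separatesPoints (chiAlg ι) (chiAlg_sep ι))

/-- trigonometric polynomial -/
noncomputable def tp (c : (ι →₀ ℤ) →₀ ℂ) : C(ι → TT, ℂ) := c.sum (fun α a => a • chi α)

theorem tp_eq (c : (ι →₀ ℤ) →₀ ℂ) : tp c = ∑ α ∈ c.support, c α • chi α := rfl

theorem tp_apply (c : (ι →₀ ℤ) →₀ ℂ) (x : ι → TT) : tp c x = ∑ α ∈ c.support, c α * chi α x := by
  simp [tp_eq]

theorem exists_tp (f : C(ι → TT, ℂ)) (ε : ℝ) (hε : 0 < ε) : ∃ c : (ι →₀ ℤ) →₀ ℂ, ‖f - tp c‖ < ε := by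
  have h1 : f ∈ (Submodule.span ℂ (Set.range (chi (ι := ι)))).topologicalClosure := by
    rw [span_chi_dense]
    trivial
  have h2 : f ∈ closure ((Submodule.span ℂ (Set.range (chi (ι := ι)))) : Set C(ι → TT, ℂ)) := h1
  rw [Metric.mem_closure_iff] at h2
  obtain ⟨g, hg, hfg⟩ := h2 ε hε
  obtain ⟨c, hc⟩ := (Finsupp.mem_span_range_iff_exists_finsupp).mp hg
  refine ⟨c, ?_⟩
  rw [dist_eq_norm, ← hc] at hfg
  exact hfg

end chars

section measure

variable {ι : Type} [Countable ι]

/-- normalised Haar measure of the torus -/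
noncomputable abbrev muG (ι : Type) [Countable ι] : Measure (ι → TT) :=
  Measure.addHaarMeasure (⊤ : TopologicalSpace.PositiveCompacts (ι → TT))

instance : (muG ι).IsAddHaarMeasure := by
  unfold muG
  infer_instance

instance : (muG ι).Regular := by
  unfold muG
  infer_instance

instance : IsProbabilityMeasure (muG ι) := ⟨by
  unfold muG
  exact Measure.addHaarMeasure_self⟩

theorem mp_lin {α : ι →₀ ℤ} (hα : α ≠ 0) : MeasurePreserving (lin α) (muG ι) mu :=
  AddMonoidHom.measurePreserving (lin_cont α) (lin_surj hα) (by rw [measure_univ, measure_univ])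

theorem int_trans {E : Type} [NormedAddCommGroup E] [NormedSpace ℝ E] (f : (ι → TT) → E) (a : ι → TT) :
    ∫ x, f (x + a) ∂(muG ι) = ∫ x, f x ∂(muG ι) :=
  integral_add_right_eq_self f a

/-- integral of a function of `lin α x` -/
theorem int_lin {E : Type} [NormedAddCommGroup E] [NormedSpace ℝ E] {α : ι →₀ ℤ} (hα : α ≠ 0) (u : TT → E)
    (hu : Continuous u) : ∫ x, u (lin α x) ∂(muG ι) = ∫ t, u t ∂mu := by
  have h := integral_map (μ := muG ι) (φ := lin α) (f := u) (lin_cont α).measurable.aemeasurable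
    (hu.aestronglyMeasurable)
  rw [(mp_lin hα).map_eq] at h
  exact h.symm

theorem int_fourier_one : ∫ t : TT, (fourier 1 t : ℂ) ∂mu = 0 := by
  have h := fc_fourier (p := 1) 1 0
  rw [fourierCoeff_congr_ae (cl_ae _)] at h
  unfold fourierCoeff at h
  simpa using h

theorem int_chi {α : ι →₀ ℤ} (hα : α ≠ 0) : ∫ x, chi α x ∂(muG ι) = 0 := by
  have h := int_lin hα (fun t : TT => (fourier 1 t : ℂ)) (map_continuous _)
  rw [int_fourier_one] at h
  exact h

theorem int_chi_ite [DecidableEq (ι →₀ ℤ)] (α : ι →₀ ℤ) : ∫ x, chi α x ∂(muG ι) = if α = 0 then 1 else 0 := by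
  split_ifs with h
  · subst h
    simp [chi_zero]
  · exact int_chi h

end measure

end Pool.Agent.KS6_66.HpT
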