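import Pool.Agent.KS6_66.HpT.A

/-!
# Lebesgue spaces of the torus, Fourier coefficients, Poisson means
-/

set_option autoImplicit false

open MeasureTheory AddCircle Filter Topology
open scoped ENNReal
open Pool.Agent.Helper192.Hp

namespace Pool.Agent.KS6_66.HpT

section lp

variable {ι : Type} [Countable ι]

/-- Lebesgue space of the torus -/
noncomputable abbrev LG (ι : Type) [Countable ι] (p : ℝ≥0∞) := Lp ℂ p (muG ι)

variable {p : ℝ≥0∞} [hp1 : Fact (1 ≤ p)]

theorem LG_integrable (f : LG ι p) : Integrable f (muG ι) :=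
  (Lp.memLp f).integrable hp1.out

theorem intG_norm_le (f : LG ι p) : ∫ t, ‖f t‖ ∂(muG ι) ≤ ‖f‖ := by
  rw [Lp.norm_def, integral_norm_eq_lintegral_enorm (LG_integrable f).aestronglyMeasurable,
    ← eLpNorm_one_eq_lintegral_enorm]
  apply ENNReal.toReal_mono (Lp.memLp f).2.ne
  exact eLpNorm_le_eLpNorm_of_exponent_le hp1.out (LG_integrable f).aestronglyMeasurable

theorem chi_mul_integrable (α : ι →₀ ℤ) {f : (ι → TT) → ℂ} (hf : Integrable f (muG ι)) :
    Integrable (fun x => chi α x * f x) (muG ι) := by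
  refine Integrable.bdd_mul (c := 1) hf (map_continuous (chi α)).aestronglyMeasurable ?_
  filter_upwards with x
  rw [chi_norm]

/-- Fourier coefficient -/
noncomputable def coefG (p : ℝ≥0∞) [hp1 : Fact (1 ≤ p)] (α : ι →₀ ℤ) : LG ι p →L[ℂ] ℂ :=
  LinearMap.mkContinuous
    { toFun := fun f => ∫ x, chi (-α) x * f x ∂(muG ι)
      map_add' := fun f g => by
        rw [← integral_add (chi_mul_integrable _ (LG_integrable f)) (chi_mul_integrable _ (LG_integrable g))]
        apply integral_congr_ae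
        filter_upwards [Lp.coeFn_add f g] with x hx
        rw [hx, Pi.add_apply, mul_add]
      map_smul' := fun c f => by
        rw [RingHom.id_apply, smul_eq_mul, ← integral_const_mul]
        apply integral_congr_ae
        filter_upwards [Lp.coeFn_smul c f] with x hx
        rw [hx, Pi.smul_apply, smul_eq_mul]
        ring } 1 (fun f => by
          rw [one_mul]
          refine le_trans ?_ (intG_norm_le f)
          refine (norm_integral_le_integral_norm _).trans (le_of_eq ?_)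
          apply integral_congr_ae
          filter_upwards with x
          rw [norm_mul, chi_norm, one_mul])

theorem coefG_apply (α : ι →₀ ℤ) (f : LG ι p) : coefG p α f = ∫ x, chi (-α) x * f x ∂(muG ι) := rfl

theorem coefG_le (α : ι →₀ ℤ) (f : LG ι p) : ‖coefG p α f‖ ≤ ‖f‖ := by
  have h := (coefG p α).le_opNorm f
  have h2 : ‖coefG (ι := ι) p α‖ ≤ 1 := LinearMap.mkContinuous_norm_le _ zero_le_one _
  calc ‖coefG p α f‖ ≤ ‖coefG (ι := ι) p α‖ * ‖f‖ := h
    _ ≤ 1 * ‖f‖ := by gcongr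
    _ = ‖f‖ := one_mul _

/-- class of a continuous function -/
noncomputable def clG (p : ℝ≥0∞) [Fact (1 ≤ p)] (f : C(ι → TT, ℂ)) : LG ι p :=
  ContinuousMap.toLp (E := ℂ) p (muG ι) ℂ f

theorem clG_ae (f : C(ι → TT, ℂ)) : clG p f =ᵐ[muG ι] f := ContinuousMap.coeFn_toLp (muG ι) f

theorem clG_add (f g : C(ι → TT, ℂ)) : clG p (f + g) = clG p f + clG p g := map_add _ _ _

theorem clG_sub (f g : C(ι → TT, ℂ)) : clG p (f - g) = clG p f - clG p g := map_sub _ _ _

theorem clG_smul (c : ℂ) (f : C(ι → TT, ℂ)) : clG p (c • f) = c • clG p f := map_smul _ _ _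

theorem clG_sum {κ : Type} (s : Finset κ) (f : κ → C(ι → TT, ℂ)) :
    clG p (∑ i ∈ s, f i) = ∑ i ∈ s, clG p (f i) := map_sum _ _ _

theorem contG_integrable {E : Type} [NormedAddCommGroup E] {f : (ι → TT) → E} (hf : Continuous f) :
    Integrable f (muG ι) :=
  hf.integrable_of_hasCompactSupport (HasCompactSupport.of_compactSpace f)

theorem rpow_cont' {X : Type} [TopologicalSpace X] {f : X → ℂ} (hf : Continuous f) (hp : p ≠ ∞) :
    Continuous (fun x => ‖f x‖ ^ p.toReal) := rpow_cont hf hp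

theorem norm_clG_rpow (hp : p ≠ ∞) (f : C(ι → TT, ℂ)) :
    ‖clG p f‖ ^ p.toReal = ∫ t, ‖f t‖ ^ p.toReal ∂(muG ι) := by
  have hp0 : p ≠ 0 := (lt_of_lt_of_le one_pos hp1.out).ne'
  have hpr : 0 < p.toReal := ENNReal.toReal_pos hp0 hp
  have hmem : MemLp f p (muG ι) := by
    have := Lp.memLp (clG p f)
    exact (memLp_congr_ae (clG_ae f)).mp this
  rw [Lp.norm_def, eLpNorm_congr_ae (clG_ae f), hmem.eLpNorm_eq_integral_rpow_norm hp0 hp,
    ENNReal.toReal_ofReal (by positivity), ← Real.rpow_mul (by positivity), inv_mul_cancel₀ hpr.ne', Real.rpow_one]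

theorem norm_clG_le (f : C(ι → TT, ℂ)) : ‖clG p f‖ ≤ ‖f‖ := by
  have h := ContinuousMap.toLp_norm_le (p := p) (μ := muG ι) (E := ℂ) (𝕜 := ℂ)
  have h2 := (ContinuousMap.toLp (E := ℂ) p (muG ι) ℂ).le_opNorm f
  unfold clG
  refine h2.trans ?_
  have h3 : (measureUnivNNReal (muG ι) : ℝ) = 1 := by
    have : measureUnivNNReal (muG ι) = 1 := by
      unfold measureUnivNNReal
      rw [measure_univ]
      rfl
    rw [this]
    rfl
  rw [h3, Real.one_rpow] at h
  calc _ ≤ 1 * ‖f‖ := by gcongr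
    _ = ‖f‖ := one_mul _

theorem coefG_cl (α : ι →₀ ℤ) (f : C(ι → TT, ℂ)) : coefG p α (clG p f) = ∫ x, chi (-α) x * f x ∂(muG ι) := by
  rw [coefG_apply]
  apply integral_congr_ae
  filter_upwards [clG_ae (p := p) f] with x hx
  rw [hx]

open Classical in
theorem coefG_chi (α β : ι →₀ ℤ) : coefG p α (clG p (chi β)) = if α = β then 1 else 0 := by
  rw [coefG_cl]
  have h : (fun x : ι → TT => chi (-α) x * chi β x) = fun x => chi (-α + β) x := by
    ext x
    rw [chi_add]
  rw [h, int_chi_ite]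
  congr 1
  rw [neg_add_eq_zero]

/-- rank one coefficient operator -/
noncomputable def EG (p : ℝ≥0∞) [Fact (1 ≤ p)] (α : ι →₀ ℤ) : LG ι p →L[ℂ] LG ι p :=
  (coefG p α).smulRight (clG p (chi α))

theorem EG_apply (α : ι →₀ ℤ) (f : LG ι p) : EG p α f = coefG p α f • clG p (chi α) := rfl

theorem norm_chi_le (α : ι →₀ ℤ) : ‖clG p (chi α)‖ ≤ 1 := by
  refine (norm_clG_le _).trans ?_
  rw [ContinuousMap.norm_le _ zero_le_one]
  intro x
  rw [chi_norm]

theorem EG_norm_le (α : ι →₀ ℤ) : ‖EG (ι := ι) p α‖ ≤ 1 := by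
  apply ContinuousLinearMap.opNorm_le_bound _ zero_le_one
  intro f
  rw [EG_apply, norm_smul]
  calc ‖coefG p α f‖ * ‖clG p (chi α)‖ ≤ ‖f‖ * 1 := by
        gcongr
        · exact coefG_le α f
        · exact norm_chi_le α
    _ = 1 * ‖f‖ := by ring

theorem EG_compact (α : ι →₀ ℤ) : IsCompactOperator (EG (ι := ι) p α) := by
  have h1 : IsCompactOperator (coefG (ι := ι) p α) := isCompactOperator_of_locallyCompactSpace_dom (coefG p α)
  have h2 := h1.clm_comp ((1 : ℂ →L[ℂ] ℂ).smulRight (clG (ι := ι) p (chi α)))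
  have h3 : (⇑((1 : ℂ →L[ℂ] ℂ).smulRight (clG (ι := ι) p (chi α))) ∘ ⇑(coefG p α)) = ⇑(EG p α) := by
    ext1 f
    simp [EG]
  rw [h3] at h2
  exact h2

theorem tp_denseG (hp : p ≠ ∞) (f : LG ι p) (ε : ℝ) (hε : 0 < ε) :
    ∃ c : (ι →₀ ℤ) →₀ ℂ, ‖f - clG p (tp c)‖ < ε := by
  have h := ContinuousMap.toLp_denseRange (α := ι → TT) ℂ (muG ι) (p := p) ℂ hp
  obtain ⟨g, hg⟩ := h.exists_dist_lt f (half_pos hε)
  obtain ⟨c, hc⟩ := exists_tp g (ε / 2) (half_pos hε)
  refine ⟨c, ?_⟩
  have h1 : f - clG p (tp c) = (f - clG p g) + clG p (g - tp c) := by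
    rw [clG_sub]
    abel
  rw [h1]
  have h2 : ‖f - clG p g‖ < ε / 2 := by
    rw [← dist_eq_norm]
    exact hg
  have h3 : ‖clG p (g - tp c)‖ < ε / 2 := (norm_clG_le _).trans_lt hc
  linarith [norm_add_le (f - clG p g) (clG p (g - tp c))]

end lp

section wt

variable {ι : Type}

/-- weight of an exponent -/
noncomputable def W (wt : ι → ℕ) (α : ι →₀ ℤ) : ℕ := α.sum (fun i k => wt i * k.natAbs)

theorem hasSum_rabs {r : ℝ} (h0 : 0 ≤ r) (h1 : r < 1) :
    HasSum (fun k : ℤ => r ^ k.natAbs) ((1 - r)⁻¹ + r * (1 - r)⁻¹) := by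
  apply HasSum.of_nat_of_neg_add_one
  · simpa using hasSum_geometric_of_lt_one h0 h1
  · have h := (hasSum_geometric_of_lt_one h0 h1).mul_left r
    refine h.congr_fun ?_
    intro n
    have : (-((n : ℤ) + 1)).natAbs = n + 1 := by omega
    rw [this, pow_succ]
    ring

theorem box_bound (wt : ι → ℕ) {r : ℝ} (h0 : 0 ≤ r) (h1 : r < 1) (hpos : ∀ i, 0 < wt i) (S : Finset ι) :
    ∀ F : Finset (ι →₀ ℤ), (∀ α ∈ F, α.support ⊆ S) →
      ∑ α ∈ F, r ^ W wt α ≤ ∏ i ∈ S, ((1 - r ^ wt i)⁻¹ + r ^ wt i * (1 - r ^ wt i)⁻¹) := by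
  classical
  induction S using Finset.induction_on with
  | empty =>
    intro F hF
    have h2 : F ⊆ {0} := by
      intro α hα
      have := hF α hα
      rw [Finset.subset_empty, Finsupp.support_eq_empty] at this
      rw [Finset.mem_singleton, this]
    calc ∑ α ∈ F, r ^ W wt α ≤ ∑ α ∈ {0}, r ^ W wt α :=
          Finset.sum_le_sum_of_subset_of_nonneg h2 (fun _ _ _ => by positivity)
      _ = 1 := by simp [W]
      _ ≤ _ := by simp
  | insert i S hi ih =>
    intro F hF
    have hlt : r ^ wt i < 1 := pow_lt_one₀ h0 h1 (hpos i).ne'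
    have hge : 0 ≤ r ^ wt i := by positivity
    let φ : (ι →₀ ℤ) → ℤ × (ι →₀ ℤ) := fun α => (α i, α.erase i)
    have hφ : Function.Injective φ := by
      intro a b hab
      have h2 : a i = b i := congrArg Prod.fst hab
      have h3 : a.erase i = b.erase i := congrArg Prod.snd hab
      rw [← Finsupp.single_add_erase i a, ← Finsupp.single_add_erase i b, h2, h3]
    have hval : ∀ α : ι →₀ ℤ, r ^ W wt α = (r ^ wt i) ^ (α i).natAbs * r ^ W wt (α.erase i) := by
      intro α
      have h2 : W wt α = wt i * (α i).natAbs + W wt (α.erase i) := by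
        unfold W
        nth_rewrite 1 [← Finsupp.single_add_erase i α]
        rw [Finsupp.sum_add_index_of_disjoint]
        · rw [Finsupp.sum_single_index (by simp)]
        · rw [Finset.disjoint_left]
          intro j hj hj2
          have := Finsupp.support_single_subset hj
          rw [Finset.mem_singleton] at this
          subst this
          simp at hj2
      rw [h2, pow_add, pow_mul]
    let K : Finset ℤ := F.image (fun α => α i)
    let B : Finset (ι →₀ ℤ) := F.image (fun α => α.erase i)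
    have h3 : ∑ α ∈ F, r ^ W wt α = ∑ z ∈ F.image φ, (r ^ wt i) ^ z.1.natAbs * r ^ W wt z.2 := by
      rw [Finset.sum_image (fun a _ b _ h => hφ h)]
      exact Finset.sum_congr rfl (fun α _ => hval α)
    have h4 : F.image φ ⊆ K ×ˢ B := by
      intro z hz
      obtain ⟨α, hα, rfl⟩ := Finset.mem_image.mp hz
      exact Finset.mem_product.mpr ⟨Finset.mem_image_of_mem _ hα, Finset.mem_image_of_mem _ hα⟩
    have h5 : ∑ z ∈ F.image φ, (r ^ wt i) ^ z.1.natAbs * r ^ W wt z.2
        ≤ ∑ z ∈ K ×ˢ B, (r ^ wt i) ^ z.1.natAbs * r ^ W wt z.2 :=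
      Finset.sum_le_sum_of_subset_of_nonneg h4 (fun _ _ _ => by positivity)
    have h6 : ∑ z ∈ K ×ˢ B, (r ^ wt i) ^ z.1.natAbs * r ^ W wt z.2
        = (∑ k ∈ K, (r ^ wt i) ^ k.natAbs) * ∑ β ∈ B, r ^ W wt β := by
      rw [Finset.sum_product, Finset.sum_mul_sum]
    have h7 : ∑ k ∈ K, (r ^ wt i) ^ k.natAbs ≤ (1 - r ^ wt i)⁻¹ + r ^ wt i * (1 - r ^ wt i)⁻¹ :=
      sum_le_hasSum K (fun _ _ => by positivity) (hasSum_rabs hge hlt)
    have h8 : ∑ β ∈ B, r ^ W wt β ≤ ∏ i ∈ S, ((1 - r ^ wt i)⁻¹ + r ^ wt i * (1 - r ^ wt i)⁻¹) := by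
      apply ih
      intro β hβ
      obtain ⟨α, hα, rfl⟩ := Finset.mem_image.mp hβ
      rw [Finsupp.support_erase]
      intro j hj
      rw [Finset.mem_erase] at hj
      have := hF α hα hj.2
      rw [Finset.mem_insert] at this
      exact this.resolve_left hj.1
    rw [h3, Finset.prod_insert hi]
    refine h5.trans (h6.le.trans ?_)
    have h9 : 0 ≤ ∑ β ∈ B, r ^ W wt β := Finset.sum_nonneg (fun _ _ => by positivity)
    have h10 : 0 ≤ (1 - r ^ wt i)⁻¹ + r ^ wt i * (1 - r ^ wt i)⁻¹ := by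
      have : 0 < 1 - r ^ wt i := by linarith
      positivity
    exact mul_le_mul h7 h8 h9 h10

theorem summable_W (wt : ι → ℕ) (hinj : Function.Injective wt) (hpos : ∀ i, 0 < wt i) {r : ℝ} (h0 : 0 ≤ r)
    (h1 : r < 1) : Summable (fun α : ι →₀ ℤ => r ^ W wt α) := by
  classical
  apply summable_of_sum_le (c := Real.exp (2 / (1 - r) * (1 - r)⁻¹)) (fun _ => by positivity)
  intro F
  let S : Finset ι := F.biUnion (fun α => α.support)
  have h2 := box_bound wt h0 h1 hpos S F (fun α hα => Finset.subset_biUnion_of_mem (fun α : ι →₀ ℤ => α.support) hα)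
  refine h2.trans ?_
  have hr : 0 < 1 - r := by linarith
  have h3 : ∀ i ∈ S, (1 - r ^ wt i)⁻¹ + r ^ wt i * (1 - r ^ wt i)⁻¹ ≤ Real.exp (2 / (1 - r) * r ^ wt i) := by
    intro i _
    have h4 : r ^ wt i ≤ r := by
      calc r ^ wt i ≤ r ^ 1 := pow_le_pow_of_le_one h0 h1.le (hpos i)
        _ = r := pow_one r
    have h5 : 0 ≤ r ^ wt i := by positivity
    have h6 : 0 < 1 - r ^ wt i := by linarith
    have h7 : (1 - r ^ wt i)⁻¹ + r ^ wt i * (1 - r ^ wt i)⁻¹ = 1 + 2 * r ^ wt i / (1 - r ^ wt i) := by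
      field_simp
      ring
    rw [h7]
    have h8 : 2 * r ^ wt i / (1 - r ^ wt i) ≤ 2 / (1 - r) * r ^ wt i := by
      rw [div_mul_eq_mul_div]
      gcongr
    have h9 := Real.add_one_le_exp (2 / (1 - r) * r ^ wt i)
    linarith
  calc ∏ i ∈ S, ((1 - r ^ wt i)⁻¹ + r ^ wt i * (1 - r ^ wt i)⁻¹) ≤ ∏ i ∈ S, Real.exp (2 / (1 - r) * r ^ wt i) := by
        apply Finset.prod_le_prod
        · intro i _
          have : r ^ wt i < 1 := pow_lt_one₀ h0 h1 (hpos i).ne'
          have h6 : 0 < 1 - r ^ wt i := by linarith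
          positivity
        · exact h3
    _ = Real.exp (2 / (1 - r) * ∑ i ∈ S, r ^ wt i) := by rw [← Real.exp_sum, Finset.mul_sum]
    _ ≤ _ := by
        apply Real.exp_le_exp.mpr
        gcongr
        rw [← Finset.sum_image (f := fun n => r ^ n) (s := S) (g := wt) (fun a _ b _ h => hinj h)]
        exact sum_le_hasSum _ (fun _ _ => by positivity) (hasSum_geometric_of_lt_one h0 h1)

end wt

end Pool.Agent.KS6_66.HpT
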