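import Pool.Agent.KS6_66.HpT.B

/-!
# Averages over lines in the torus; the Poisson means are contractions
-/

set_option autoImplicit false

open MeasureTheory AddCircle Filter Topology
open scoped ENNReal
open Pool.Agent.Helper192.Hp

namespace Pool.Agent.KS6_66.HpT

section avg

variable {ι : Type} [Countable ι]

/-- averages over the translates of a line -/
theorem int_avg {u : (ι → TT) → ℝ} (hu : Continuous u) (l : TT → (ι → TT)) (hl : Continuous l) :
    ∫ x, ∫ t, u (x + l t) ∂mu ∂(muG ι) = ∫ x, u x ∂(muG ι) := by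
  have hc : Continuous (Function.uncurry (fun (x : ι → TT) (t : TT) => u (x + l t))) := by
    show Continuous (fun z : (ι → TT) × TT => u (z.1 + l z.2))
    fun_prop
  have hint : Integrable (Function.uncurry (fun (x : ι → TT) (t : TT) => u (x + l t))) ((muG ι).prod mu) :=
    hc.integrable_of_hasCompactSupport (HasCompactSupport.of_compactSpace _)
  rw [integral_integral_swap hint]
  have h : ∀ t, ∫ x, u (x + l t) ∂(muG ι) = ∫ x, u x ∂(muG ι) := fun t => int_trans u (l t)
  simp only [h]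
  simp

theorem inner_contG {f : (ι → TT) → TT → ℝ} (hf : Continuous (Function.uncurry f)) :
    Integrable (fun x => ∫ t, f x t ∂mu) (muG ι) := by
  have hint : Integrable (Function.uncurry f) ((muG ι).prod mu) :=
    hf.integrable_of_hasCompactSupport (HasCompactSupport.of_compactSpace _)
  exact hint.integral_prod_left

/-- an inequality on all lines gives an inequality on the torus -/
theorem line_ineq {u v : (ι → TT) → ℝ} (hu : Continuous u) (hv : Continuous v) (l : TT → (ι → TT))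
    (hl : Continuous l) (C : ℝ) (h : ∀ x, ∫ t, u (x + l t) ∂mu ≤ C * ∫ t, v (x + l t) ∂mu) :
    ∫ x, u x ∂(muG ι) ≤ C * ∫ x, v x ∂(muG ι) := by
  rw [← int_avg hu l hl, ← int_avg hv l hl, ← integral_const_mul]
  apply integral_mono
  · apply inner_contG (f := fun x t => u (x + l t))
    show Continuous (fun z : (ι → TT) × TT => u (z.1 + l z.2))
    fun_prop
  · apply Integrable.const_mul
    apply inner_contG (f := fun x t => v (x + l t))
    show Continuous (fun z : (ι → TT) × TT => v (z.1 + l z.2))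
    fun_prop
  · exact h

end avg

section contr

variable {ι : Type} [Countable ι] {p : ℝ≥0∞} [hp1 : Fact (1 ≤ p)]

theorem finsetSum_single_sum {κ : Type} (F : Finset κ) (a : κ → ℤ) (d : κ → ℂ) (g : ℤ → ℂ) :
    (∑ α ∈ F, Finsupp.single (a α) (d α)).sum (fun k b => b * g k) = ∑ α ∈ F, d α * g (a α) := by
  rw [← Finsupp.sum_finsetSum_index (fun k => zero_mul _) (fun k b c => add_mul _ _ _)]
  apply Finset.sum_congr rfl
  intro α _
  rw [Finsupp.sum_single_index (zero_mul _)]

/-- Poisson contraction in one variable -/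
theorem one_var (hp : p ≠ ∞) (F : Finset (ι →₀ ℤ)) (d : (ι →₀ ℤ) → ℂ) (i : ι) {r : ℝ} (h0 : 0 ≤ r) (h1 : r < 1) :
    ∫ x, ‖∑ α ∈ F, d α * (r : ℂ) ^ (α i).natAbs * chi α x‖ ^ p.toReal ∂(muG ι)
      ≤ ∫ x, ‖∑ α ∈ F, d α * chi α x‖ ^ p.toReal ∂(muG ι) := by
  classical
  have hl : Continuous (fun t : TT => (Pi.single i t : ι → TT)) := by
    apply continuous_pi
    intro j
    by_cases hj : j = i
    · subst hj
      simp only [Pi.single_eq_same]
      exact continuous_id
    · simp only [Pi.single_eq_of_ne hj]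
      exact continuous_const
  have hline : ∀ (α : ι →₀ ℤ) (x : ι → TT) (t : TT), chi α (x + Pi.single i t) = chi α x * fourier (α i) t := by
    intro α x t
    rw [chi_add_apply, chi_apply α (Pi.single i t), lin_single, fourier_apply, fourier_apply, one_smul]
  have h := line_ineq (u := fun x => ‖∑ α ∈ F, d α * (r : ℂ) ^ (α i).natAbs * chi α x‖ ^ p.toReal)
    (v := fun x => ‖∑ α ∈ F, d α * chi α x‖ ^ p.toReal) (rpow_cont (by fun_prop) hp) (rpow_cont (by fun_prop) hp)
    (fun t : TT => (Pi.single i t : ι → TT)) hl 1 (fun x => by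
      rw [one_mul]
      have h2 := poisson_contr hp (∑ α ∈ F, Finsupp.single (α i) (d α * chi α x)) h0 h1
      refine le_trans (le_of_eq ?_) (h2.trans (le_of_eq ?_))
      · apply integral_congr_ae
        filter_upwards with t
        congr 2
        have h3 := finsetSum_single_sum F (fun α => α i) (fun α => d α * chi α x)
          (fun k => (r : ℂ) ^ k.natAbs * fourier k t)
        unfold Finsupp.sum at h3
        calc _ = ∑ α ∈ F, d α * chi α x * ((r : ℂ) ^ (α i).natAbs * fourier (α i) t) := by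
              apply Finset.sum_congr rfl
              intro α _
              rw [hline]
              ring
          _ = _ := by
              rw [← h3]
              apply Finset.sum_congr rfl
              intro k _
              ring
      · apply integral_congr_ae
        filter_upwards with t
        congr 2
        have h3 := finsetSum_single_sum F (fun α => α i) (fun α => d α * chi α x) (fun k => fourier k t)
        unfold Finsupp.sum at h3
        rw [tpol_apply, h3]
        apply Finset.sum_congr rfl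
        intro α _
        rw [hline]
        ring)
  rwa [one_mul] at h

omit [Countable ι] in
theorem W_eq_sum (wt : ι → ℕ) (α : ι →₀ ℤ) (S : Finset ι) (hS : α.support ⊆ S) :
    W wt α = ∑ i ∈ S, wt i * (α i).natAbs := by
  unfold W Finsupp.sum
  apply Finset.sum_subset hS
  intro i _ hi
  rw [Finsupp.notMem_support_iff.mp hi]
  simp

/-- Poisson contraction in finitely many variables -/
theorem many_var (hp : p ≠ ∞) (wt : ι → ℕ) (hpos : ∀ i, 0 < wt i) (F : Finset (ι →₀ ℤ)) (d : (ι →₀ ℤ) → ℂ)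
    {r : ℝ} (h0 : 0 ≤ r) (h1 : r < 1) (S : Finset ι) :
    ∫ x, ‖∑ α ∈ F, d α * (r : ℂ) ^ (∑ i ∈ S, wt i * (α i).natAbs) * chi α x‖ ^ p.toReal ∂(muG ι)
      ≤ ∫ x, ‖∑ α ∈ F, d α * chi α x‖ ^ p.toReal ∂(muG ι) := by
  classical
  induction S using Finset.induction_on with
  | empty => simp
  | insert i S hi ih =>
    refine le_trans ?_ ih
    have h2 := one_var hp F (fun α => d α * (r : ℂ) ^ (∑ i ∈ S, wt i * (α i).natAbs)) i
      (r := r ^ wt i) (by positivity) (pow_lt_one₀ h0 h1 (hpos i).ne')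
    refine le_trans (le_of_eq ?_) h2
    apply integral_congr_ae
    filter_upwards with x
    congr 2
    apply Finset.sum_congr rfl
    intro α _
    rw [Finset.sum_insert hi, pow_add, pow_mul]
    push_cast
    ring

theorem poisson_contrG (hp : p ≠ ∞) (wt : ι → ℕ) (hpos : ∀ i, 0 < wt i) (F : Finset (ι →₀ ℤ)) (d : (ι →₀ ℤ) → ℂ)
    {r : ℝ} (h0 : 0 ≤ r) (h1 : r < 1) :
    ∫ x, ‖∑ α ∈ F, d α * (r : ℂ) ^ W wt α * chi α x‖ ^ p.toReal ∂(muG ι)
      ≤ ∫ x, ‖∑ α ∈ F, d α * chi α x‖ ^ p.toReal ∂(muG ι) := by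
  classical
  let S : Finset ι := F.biUnion (fun α => α.support)
  refine le_trans (le_of_eq ?_) (many_var hp wt hpos F d h0 h1 S)
  apply integral_congr_ae
  filter_upwards with x
  congr 2
  apply Finset.sum_congr rfl
  intro α hα
  rw [W_eq_sum wt α S (Finset.subset_biUnion_of_mem (fun α : ι →₀ ℤ => α.support) hα)]

end contr

section ops

variable {ι : Type} [Countable ι] {p : ℝ≥0∞} [hp1 : Fact (1 ≤ p)] {wt : ι → ℕ}

/-- Poisson means -/
noncomputable def TG (p : ℝ≥0∞) [Fact (1 ≤ p)] (wt : ι → ℕ) (r : ℝ) : LG ι p →L[ℂ] LG ι p :=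
  ∑' α : ι →₀ ℤ, ((r : ℂ) ^ W wt α) • EG p α

/-- the weights are distinct and positive -/
def Good (wt : ι → ℕ) : Prop := Function.Injective wt ∧ ∀ i, 0 < wt i

theorem TG_summable (hw : Good wt) {r : ℝ} (h0 : 0 ≤ r) (h1 : r < 1) :
    Summable (fun α : ι →₀ ℤ => ((r : ℂ) ^ W wt α) • EG (ι := ι) p α) := by
  apply Summable.of_norm_bounded (summable_W wt hw.1 hw.2 h0 h1)
  intro α
  rw [norm_smul, norm_pow, Complex.norm_real, Real.norm_of_nonneg h0]
  calc r ^ W wt α * ‖EG (ι := ι) p α‖ ≤ r ^ W wt α * 1 := by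
        gcongr
        exact EG_norm_le α
    _ = _ := mul_one _

theorem TG_hasSum (hw : Good wt) {r : ℝ} (h0 : 0 ≤ r) (h1 : r < 1) (f : LG ι p) :
    HasSum (fun α : ι →₀ ℤ => ((r : ℂ) ^ W wt α * coefG p α f) • clG p (chi α)) (TG p wt r f) := by
  have h := (TG_summable (p := p) hw h0 h1).hasSum
  have h2 := h.mapL (ContinuousLinearMap.apply ℂ (LG ι p) f)
  refine h2.congr_fun ?_
  intro α
  show _ = (((r : ℂ) ^ W wt α) • EG (ι := ι) p α) f
  rw [smul_apply, EG_apply, smul_smul]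

open Classical in
theorem TG_chi (hw : Good wt) {r : ℝ} (h0 : 0 ≤ r) (h1 : r < 1) (β : ι →₀ ℤ) :
    TG p wt r (clG p (chi β)) = ((r : ℂ) ^ W wt β) • clG p (chi β) := by
  have h := TG_hasSum hw h0 h1 (clG p (chi β))
  refine h.unique ?_
  have h2 := hasSum_ite_eq β (((r : ℂ) ^ W wt β) • clG p (chi β))
  refine h2.congr_fun ?_
  intro α
  rw [coefG_chi]
  by_cases hα : α = β
  · subst hα
    simp
  · simp [hα]

theorem TG_coef (hw : Good wt) {r : ℝ} (h0 : 0 ≤ r) (h1 : r < 1) (f : LG ι p) (β : ι →₀ ℤ) :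
    coefG p β (TG p wt r f) = (r : ℂ) ^ W wt β * coefG p β f := by
  classical
  have h := (TG_hasSum hw h0 h1 f).mapL (coefG p β)
  refine h.unique ?_
  have h2 := hasSum_ite_eq β ((r : ℂ) ^ W wt β * coefG p β f)
  refine h2.congr_fun ?_
  intro α
  rw [map_smul, coefG_chi]
  by_cases hα : α = β
  · subst hα
    simp
  · have : ¬ β = α := fun h => hα h.symm
    simp [hα, this]

theorem TG_compact (hw : Good wt) {r : ℝ} (h0 : 0 ≤ r) (h1 : r < 1) : IsCompactOperator (TG (ι := ι) p wt r) := by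
  have h := (TG_summable (p := p) hw h0 h1).hasSum
  refine isCompactOperator_of_tendsto (f := TG p wt r)
    (F := fun s : Finset (ι →₀ ℤ) => ∑ α ∈ s, ((r : ℂ) ^ W wt α) • EG p α) h ?_
  filter_upwards with s
  have : ∀ s : Finset (ι →₀ ℤ), (∑ α ∈ s, ((r : ℂ) ^ W wt α) • EG (ι := ι) p α) ∈
      compactOperator (RingHom.id ℂ) (LG ι p) (LG ι p) := by
    intro s
    apply Submodule.sum_mem
    intro α _
    apply Submodule.smul_mem
    exact EG_compact α
  exact this s

theorem clG_tp (c : (ι →₀ ℤ) →₀ ℂ) : clG p (tp c) = ∑ α ∈ c.support, c α • clG p (chi α) := by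
  rw [tp_eq, clG_sum]
  simp only [clG_smul]

theorem TG_tp (hw : Good wt) {r : ℝ} (h0 : 0 ≤ r) (h1 : r < 1) (c : (ι →₀ ℤ) →₀ ℂ) :
    TG p wt r (clG p (tp c)) = clG p (∑ α ∈ c.support, (c α * (r : ℂ) ^ W wt α) • chi α) := by
  rw [clG_tp, map_sum, clG_sum]
  apply Finset.sum_congr rfl
  intro α _
  rw [map_smul, TG_chi hw h0 h1, smul_smul, clG_smul]

theorem TG_tp_norm (hp : p ≠ ∞) (hw : Good wt) {r : ℝ} (h0 : 0 ≤ r) (h1 : r < 1) (c : (ι →₀ ℤ) →₀ ℂ) :
    ‖TG p wt r (clG p (tp c))‖ ≤ ‖clG p (tp c)‖ := by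
  have hq : 0 < p.toReal := by linarith [one_le_toReal (p := p) hp]
  apply rpow_le_imp (norm_nonneg _) (norm_nonneg _) hq
  rw [TG_tp hw h0 h1, norm_clG_rpow hp, norm_clG_rpow hp]
  refine le_trans (le_of_eq ?_) ((poisson_contrG hp wt hw.2 c.support c h0 h1).trans (le_of_eq ?_))
  · apply integral_congr_ae
    filter_upwards with z
    congr 2
    simp
  · apply integral_congr_ae
    filter_upwards with z
    congr 2
    rw [tp_apply]

theorem TG_norm_le (hp : p ≠ ∞) (hw : Good wt) {r : ℝ} (h0 : 0 ≤ r) (h1 : r < 1) (f : LG ι p) :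
    ‖TG p wt r f‖ ≤ ‖f‖ := by
  apply le_of_forall_pos_le_add
  intro ε hε
  have hK : 0 < ‖TG (ι := ι) p wt r‖ + 1 := by positivity
  obtain ⟨c, hc⟩ := tp_denseG hp f (ε / (‖TG (ι := ι) p wt r‖ + 1)) (by positivity)
  have h2 : ‖TG p wt r f‖ ≤ ‖TG p wt r (clG p (tp c))‖ + ‖TG (ι := ι) p wt r‖ * ‖f - clG p (tp c)‖ := by
    have : TG p wt r f = TG p wt r (clG p (tp c)) + TG p wt r (f - clG p (tp c)) := by
      rw [← map_add]
      congr 1
      abel
    rw [this]
    refine (norm_add_le _ _).trans ?_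
    gcongr
    exact (TG p wt r).le_opNorm _
  have h3 := TG_tp_norm hp hw h0 h1 c
  have h4 : ‖clG p (tp c)‖ ≤ ‖f‖ + ‖f - clG p (tp c)‖ := by
    have : clG p (tp c) = f - (f - clG p (tp c)) := by abel
    nth_rewrite 1 [this]
    exact norm_sub_le _ _
  rw [lt_div_iff₀ hK] at hc
  nlinarith [norm_nonneg (TG (ι := ι) p wt r), norm_nonneg (f - clG p (tp c))]

theorem TG_tendsto_tp (hw : Good wt) (c : (ι →₀ ℤ) →₀ ℂ) {rn : ℕ → ℝ} (h0 : ∀ n, 0 ≤ rn n) (h1 : ∀ n, rn n < 1)
    (hr : Tendsto rn atTop (𝓝 1)) :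
    Tendsto (fun n => TG p wt (rn n) (clG p (tp c))) atTop (𝓝 (clG p (tp c))) := by
  have h2 : ∀ n, TG p wt (rn n) (clG p (tp c)) =
      ∑ α ∈ c.support, (c α * ((rn n : ℝ) : ℂ) ^ W wt α) • clG p (chi α) := by
    intro n
    rw [TG_tp hw (h0 n) (h1 n), clG_sum]
    simp only [clG_smul]
  simp only [h2]
  rw [clG_tp]
  apply tendsto_finsetSum
  intro α _
  have h3 : Tendsto (fun n => ((rn n : ℝ) : ℂ)) atTop (𝓝 1) := by
    have := (Complex.continuous_ofReal.tendsto 1).comp hr
    rw [Complex.ofReal_one] at this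
    exact this
  have h4 : Tendsto (fun n => c α * ((rn n : ℝ) : ℂ) ^ W wt α) atTop (𝓝 (c α * 1 ^ W wt α)) :=
    (h3.pow _).const_mul _
  rw [one_pow, mul_one] at h4
  exact h4.smul_const _

theorem TG_tendsto (hp : p ≠ ∞) (hw : Good wt) (f : LG ι p) {rn : ℕ → ℝ} (h0 : ∀ n, 0 ≤ rn n)
    (h1 : ∀ n, rn n < 1) (hr : Tendsto rn atTop (𝓝 1)) : Tendsto (fun n => TG p wt (rn n) f) atTop (𝓝 f) := by
  rw [Metric.tendsto_atTop]
  intro ε hε
  obtain ⟨c, hc⟩ := tp_denseG hp f (ε / 3) (by positivity)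
  obtain ⟨N, hN⟩ := Metric.tendsto_atTop.mp (TG_tendsto_tp (p := p) hw c h0 h1 hr) (ε / 3) (by positivity)
  refine ⟨N, fun n hn => ?_⟩
  have h2 := hN n hn
  rw [dist_eq_norm] at h2 ⊢
  have h3 : TG p wt (rn n) f - f = TG p wt (rn n) (f - clG p (tp c)) +
      (TG p wt (rn n) (clG p (tp c)) - clG p (tp c)) - (f - clG p (tp c)) := by
    rw [map_sub]
    abel
  rw [h3]
  have h4 := TG_norm_le hp hw (h0 n) (h1 n) (f - clG p (tp c))
  have h5 := norm_sub_le (TG p wt (rn n) (f - clG p (tp c)) + (TG p wt (rn n) (clG p (tp c)) - clG p (tp c)))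
    (f - clG p (tp c))
  have h6 := norm_add_le (TG p wt (rn n) (f - clG p (tp c))) (TG p wt (rn n) (clG p (tp c)) - clG p (tp c))
  linarith

end ops

end Pool.Agent.KS6_66.HpT
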