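import Pool.Agent.KS6_66.HpT.C

/-!
# Analytic polynomials on the torus and the upper bound
-/

set_option autoImplicit false

open MeasureTheory AddCircle Filter Topology
open scoped ENNReal
open Pool.Agent.Helper192.Hp

namespace Pool.Agent.KS6_66.HpT

section oned

variable {p : ℝ≥0∞} [hp1 : Fact (1 ≤ p)]

theorem oneA (hp : p ≠ ∞) {r : ℝ} (h0 : 0 ≤ r) (h1 : r < 1) (n : ℕ) (c : ℕ → ℂ) :
    ∫ t, ‖pol n c t - pol n (fun k => c k * (r : ℂ) ^ (2 * k)) t‖ ^ p.toReal ∂mu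
      ≤ ‖1 - K0 p‖ ^ p.toReal * ∫ t, ‖pol n c t‖ ^ p.toReal ∂mu := by
  have h02 : 0 ≤ r ^ 2 := by positivity
  have h12 : r ^ 2 < 1 := by nlinarith
  have h5 : cl p (pol n c) - TL p (r ^ 2) (cl p (pol n c)) =
      cl p (pol n c - pol n (fun k => c k * (r : ℂ) ^ (2 * k))) := by
    rw [cl_sub]
    congr 1
    unfold pol
    rw [cl_sum, map_sum, cl_sum]
    apply Finset.sum_congr rfl
    intro k _
    rw [cl_smul, map_smul, TL_fourier h02 h12, smul_smul, cl_smul]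
    congr 2
    push_cast
    rw [Int.natAbs_natCast, ← pow_mul]
  have h := TL_pol_bound hp h0 h1 n c
  rw [h5] at h
  exact cl_norm_le_of (hp := hp) (ContinuousLinearMap.opNorm_nonneg _) h

theorem polN_one (n : ℕ) (c : ℕ → ℂ) : polN 1 n c = pol n c := by
  unfold polN pol
  simp only [mul_one]

theorem oneB (hp : p ≠ ∞) (n : ℕ) (c : ℕ → ℂ) :
    ∫ t, ‖pol (n + 1) c t - c 0‖ ^ p.toReal ∂mu
      ≤ ‖1 - K0 p‖ ^ p.toReal * ∫ t, ‖pol (n + 1) c t‖ ^ p.toReal ∂mu := by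
  have h := (1 - K0 p).le_opNorm (gH p 1 (n + 1) c)
  have h2 : ‖(1 - K0 p) (gH p 1 (n + 1) c)‖ = ‖cl p (pol (n + 1) c - c 0 • fourier 0)‖ := by
    show ‖(((1 - K0 p) (gH p 1 (n + 1) c) : HardySp p) : LP p)‖ = _
    have h3 : (1 - K0 p) (gH p 1 (n + 1) c) = gH p 1 (n + 1) c - K0 p (gH p 1 (n + 1) c) := rfl
    rw [h3, K0_gH, Submodule.coe_sub, gH_coe, polN_one, cl_sub, cl_smul]
    rfl
  have h3 : ‖gH p 1 (n + 1) c‖ = ‖cl p (pol (n + 1) c)‖ := gH_norm hp one_pos (n + 1) c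
  rw [h2, h3] at h
  refine le_trans (le_of_eq ?_) (cl_norm_le_of (hp := hp) (ContinuousLinearMap.opNorm_nonneg _) h)
  apply integral_congr_ae
  filter_upwards with t
  simp

end oned

section analytic

variable {ι : Type}

/-- the line `t ↦ (wt i • t)` -/
noncomputable def wline (wt : ι → ℕ) (t : TT) : ι → TT := fun i => wt i • t

theorem wline_cont (wt : ι → ℕ) : Continuous (wline wt) :=
  continuous_pi (fun i => continuous_nsmul (wt i))

theorem lin_wline (wt : ι → ℕ) (α : ι →₀ ℤ) (hα : ∀ i, 0 ≤ α i) (t : TT) :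
    lin α (wline wt t) = (W wt α) • t := by
  rw [lin_apply]
  unfold W Finsupp.sum wline
  rw [Finset.sum_smul]
  apply Finset.sum_congr rfl
  intro i _
  obtain ⟨m, hm⟩ := Int.eq_ofNat_of_zero_le (hα i)
  dsimp only
  rw [hm, Int.natAbs_natCast, natCast_zsmul, smul_smul, mul_comm m (wt i)]

theorem chi_wline (wt : ι → ℕ) (α : ι →₀ ℤ) (hα : ∀ i, 0 ≤ α i) (x : ι → TT) (t : TT) :
    chi α (x + wline wt t) = chi α x * fourier ((W wt α : ℕ) : ℤ) t := by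
  rw [chi_add_apply, chi_apply α (wline wt t), lin_wline wt α hα, fourier_one_nsmul]

/-- coefficients of the restriction of a polynomial to a line -/
noncomputable def cx (wt : ι → ℕ) (c : (ι →₀ ℤ) →₀ ℂ) (x : ι → TT) (k : ℕ) : ℂ :=
  ∑ α ∈ c.support with W wt α = k, c α * chi α x

theorem line_sum (wt : ι → ℕ) (c : (ι →₀ ℤ) →₀ ℂ) (x : ι → TT) (g : ℕ → ℂ) :
    ∑ k ∈ Finset.range (c.support.sup (W wt) + 1), cx wt c x k * g k
      = ∑ α ∈ c.support, c α * chi α x * g (W wt α) := by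
  unfold cx
  rw [← Finset.sum_fiberwise_of_maps_to (s := c.support) (t := Finset.range (c.support.sup (W wt) + 1))
    (g := W wt)]
  · apply Finset.sum_congr rfl
    intro k _
    rw [Finset.sum_mul]
    apply Finset.sum_congr rfl
    intro α hα
    rw [(Finset.mem_filter.mp hα).2]
  · intro α hα
    rw [Finset.mem_range]
    exact Nat.lt_succ_of_le (Finset.le_sup (f := W wt) hα)

theorem W_eq_zero {wt : ι → ℕ} (hpos : ∀ i, 0 < wt i) {α : ι →₀ ℤ} (h : W wt α = 0) : α = 0 := by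
  ext i
  by_contra hi
  have hi2 : α i ≠ 0 := hi
  unfold W Finsupp.sum at h
  rw [Finset.sum_eq_zero_iff] at h
  have h2 := h i (Finsupp.mem_support_iff.mpr hi2)
  rcases Nat.mul_eq_zero.mp h2 with h3 | h3
  · exact (hpos i).ne' h3
  · exact hi2 (Int.natAbs_eq_zero.mp h3)

theorem cx_zero {wt : ι → ℕ} (hpos : ∀ i, 0 < wt i) (c : (ι →₀ ℤ) →₀ ℂ) (x : ι → TT) : cx wt c x 0 = c 0 := by
  unfold cx
  by_cases h : (0 : ι →₀ ℤ) ∈ c.support
  · rw [Finset.sum_eq_single 0]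
    · rw [chi_zero, mul_one]
    · intro α hα hα0
      exact absurd (W_eq_zero hpos (Finset.mem_filter.mp hα).2) hα0
    · intro h2
      exfalso
      apply h2
      rw [Finset.mem_filter]
      exact ⟨h, by simp [W]⟩
  · rw [Finset.sum_eq_zero]
    · exact (Finsupp.notMem_support_iff.mp h).symm
    · intro α hα
      exfalso
      have h2 := Finset.mem_filter.mp hα
      rw [W_eq_zero hpos h2.2] at h2
      exact h h2.1

theorem tp_line (wt : ι → ℕ) (c : (ι →₀ ℤ) →₀ ℂ) (hc : ∀ α ∈ c.support, ∀ i, 0 ≤ α i) (x : ι → TT) (t : TT) :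
    tp c (x + wline wt t) = pol (c.support.sup (W wt) + 1) (cx wt c x) t := by
  rw [pol_apply, tp_apply, line_sum wt c x (fun k => fourier (k : ℤ) t)]
  apply Finset.sum_congr rfl
  intro α hα
  rw [chi_wline wt α (hc α hα)]
  ring

theorem tpr_line (wt : ι → ℕ) (c : (ι →₀ ℤ) →₀ ℂ) (hc : ∀ α ∈ c.support, ∀ i, 0 ≤ α i) (x : ι → TT) (t : TT)
    (r : ℝ) :
    (∑ α ∈ c.support, (c α * ((r ^ 2 : ℝ) : ℂ) ^ W wt α) • chi α) (x + wline wt t)
      = pol (c.support.sup (W wt) + 1) (fun k => cx wt c x k * (r : ℂ) ^ (2 * k)) t := by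
  rw [pol_apply]
  have h := line_sum wt c x (fun k => (r : ℂ) ^ (2 * k) * fourier (k : ℤ) t)
  have h2 : ∑ k ∈ Finset.range (c.support.sup (W wt) + 1), cx wt c x k * (r : ℂ) ^ (2 * k) * fourier (k : ℤ) t
      = ∑ k ∈ Finset.range (c.support.sup (W wt) + 1), cx wt c x k * ((r : ℂ) ^ (2 * k) * fourier (k : ℤ) t) := by
    apply Finset.sum_congr rfl
    intro k _
    ring
  rw [h2, h]
  simp only [ContinuousMap.coe_sum, Finset.sum_apply, ContinuousMap.coe_smul, Pi.smul_apply, smul_eq_mul]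
  apply Finset.sum_congr rfl
  intro α hα
  rw [chi_wline wt α (hc α hα)]
  push_cast
  rw [← pow_mul]
  ring

variable [Countable ι] {p : ℝ≥0∞} [hp1 : Fact (1 ≤ p)] {wt : ι → ℕ}

theorem clG_norm_le_of (hp : p ≠ ∞) {ρ : ℝ} (hρ : 0 ≤ ρ) {f g : C(ι → TT, ℂ)}
    (h : ∫ t, ‖f t‖ ^ p.toReal ∂(muG ι) ≤ ρ ^ p.toReal * ∫ t, ‖g t‖ ^ p.toReal ∂(muG ι)) :
    ‖clG p f‖ ≤ ρ * ‖clG p g‖ := by
  have hq : 0 < p.toReal := by linarith [one_le_toReal (p := p) hp]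
  apply rpow_le_imp (norm_nonneg _) (by positivity) hq
  rw [Real.mul_rpow hρ (norm_nonneg _), norm_clG_rpow hp, norm_clG_rpow hp]
  exact h

theorem anA (hp : p ≠ ∞) (hw : Good wt) {r : ℝ} (h0 : 0 ≤ r) (h1 : r < 1) (c : (ι →₀ ℤ) →₀ ℂ)
    (hc : ∀ α ∈ c.support, ∀ i, 0 ≤ α i) :
    ‖clG p (tp c) - TG p wt (r ^ 2) (clG p (tp c))‖ ≤ ‖1 - K0 p‖ * ‖clG p (tp c)‖ := by
  have h02 : 0 ≤ r ^ 2 := by positivity
  have h12 : r ^ 2 < 1 := by nlinarith
  rw [TG_tp hw h02 h12, ← clG_sub]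
  apply clG_norm_le_of hp (ContinuousLinearMap.opNorm_nonneg _)
  refine line_ineq (u := fun x => ‖(tp c - ∑ α ∈ c.support, (c α * ((r ^ 2 : ℝ) : ℂ) ^ W wt α) • chi α) x‖ ^ p.toReal)
    (v := fun x => ‖tp c x‖ ^ p.toReal) (rpow_cont (map_continuous _) hp) (rpow_cont (map_continuous _) hp)
    (wline wt) (wline_cont wt) _ (fun x => ?_)
  refine le_trans (le_of_eq ?_) ((oneA hp h0 h1 (c.support.sup (W wt) + 1) (cx wt c x)).trans (le_of_eq ?_))
  · apply integral_congr_ae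
    filter_upwards with t
    rw [ContinuousMap.sub_apply, tp_line wt c hc, tpr_line wt c hc]
  · congr 1
    apply integral_congr_ae
    filter_upwards with t
    rw [tp_line wt c hc]

theorem anB (hp : p ≠ ∞) (hw : Good wt) (c : (ι →₀ ℤ) →₀ ℂ) (hc : ∀ α ∈ c.support, ∀ i, 0 ≤ α i) :
    ‖clG p (tp c) - c 0 • clG p (chi 0)‖ ≤ ‖1 - K0 p‖ * ‖clG p (tp c)‖ := by
  rw [← clG_smul, ← clG_sub]
  apply clG_norm_le_of hp (ContinuousLinearMap.opNorm_nonneg _)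
  refine line_ineq (u := fun x => ‖(tp c - c 0 • chi 0 : C(ι → TT, ℂ)) x‖ ^ p.toReal)
    (v := fun x => ‖tp c x‖ ^ p.toReal) (rpow_cont (map_continuous _) hp) (rpow_cont (map_continuous _) hp)
    (wline wt) (wline_cont wt) _ (fun x => ?_)
  refine le_trans (le_of_eq ?_) ((oneB hp (c.support.sup (W wt)) (cx wt c x)).trans (le_of_eq ?_))
  · apply integral_congr_ae
    filter_upwards with t
    rw [ContinuousMap.sub_apply, tp_line wt c hc, cx_zero hw.2, ContinuousMap.smul_apply, chi_zero, smul_eq_mul,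
      mul_one]
  · congr 1
    apply integral_congr_ae
    filter_upwards with t
    rw [tp_line wt c hc]

end analytic

section hardy

variable {ι : Type} [Countable ι] {p : ℝ≥0∞} [hp1 : Fact (1 ≤ p)] {wt : ι → ℕ}

/-- the `f ∈ L^p` whose Fourier coefficients vanish off `Λ` -/
noncomputable def HG (p : ℝ≥0∞) [Fact (1 ≤ p)] (Λ : Set (ι →₀ ℤ)) : Submodule ℂ (LG ι p) where
  carrier := {f | ∀ α, α ∉ Λ → coefG p α f = 0}
  add_mem' := fun {f g} hf hg α hα => by rw [map_add, hf α hα, hg α hα, add_zero]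
  zero_mem' := fun α _ => map_zero _
  smul_mem' := fun c f hf α hα => by rw [map_smul, hf α hα, smul_zero]

theorem HG_closed (Λ : Set (ι →₀ ℤ)) : IsClosed (HG p Λ : Set (LG ι p)) := by
  have h : (HG p Λ : Set (LG ι p)) = ⋂ α : ι →₀ ℤ, ⋂ _ : α ∉ Λ, {f | coefG p α f = 0} := by
    ext f
    simp only [Set.mem_iInter]
    exact Iff.rfl
  rw [h]
  apply isClosed_iInter
  intro α
  apply isClosed_iInter
  intro _
  exact isClosed_eq (coefG p α).continuous continuous_const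

theorem chi_mem {Λ : Set (ι →₀ ℤ)} {β : ι →₀ ℤ} (hβ : β ∈ Λ) : clG p (chi β) ∈ HG p Λ := by
  classical
  intro α hα
  rw [coefG_chi, if_neg]
  rintro rfl
  exact hα hβ

theorem TG_mem (hw : Good wt) {Λ : Set (ι →₀ ℤ)} {r : ℝ} (h0 : 0 ≤ r) (h1 : r < 1) {f : LG ι p}
    (hf : f ∈ HG p Λ) : TG p wt r f ∈ HG p Λ := by
  intro α hα
  rw [TG_coef hw h0 h1, hf α hα, mul_zero]

/-- polynomials with exponents in `Λ` are dense -/
theorem HG_dense (hp : p ≠ ∞) (hw : Good wt) {Λ : Set (ι →₀ ℤ)} {f : LG ι p} (hf : f ∈ HG p Λ) (ε : ℝ)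
    (hε : 0 < ε) : ∃ c : (ι →₀ ℤ) →₀ ℂ, (∀ α ∈ c.support, α ∈ Λ) ∧ ‖f - clG p (tp c)‖ < ε := by
  classical
  obtain ⟨N, hN⟩ := Metric.tendsto_atTop.mp
    (TG_tendsto hp hw f rad_nonneg rad_lt rad_tendsto) (ε / 2) (by positivity)
  have h1 := hN N le_rfl
  have h2 := TG_hasSum hw (rad_nonneg N) (rad_lt N) f
  obtain ⟨s, hs⟩ := (Metric.tendsto_atTop.mp h2) (ε / 2) (by positivity)
  have h3 := hs s le_rfl
  let a : (ι →₀ ℤ) → ℂ := fun α => ((rad N : ℝ) : ℂ) ^ W wt α * coefG p α f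
  let c : (ι →₀ ℤ) →₀ ℂ := Finsupp.indicator s (fun α _ => a α)
  have hc : tp c = ∑ α ∈ s, a α • chi α := by
    unfold tp c
    exact Finsupp.sum_indicator_index _ (fun α _ => zero_smul _ _)
  refine ⟨c, ?_, ?_⟩
  · intro α hα
    by_contra hn
    have h4 : c α ≠ 0 := Finsupp.mem_support_iff.mp hα
    apply h4
    simp only [c, a, Finsupp.indicator_apply, hf α hn, mul_zero, dite_eq_ite, ite_self]
  · rw [hc, clG_sum]
    simp only [clG_smul]
    rw [dist_eq_norm] at h1 h3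
    have h5 : f - ∑ α ∈ s, a α • clG p (chi α) =
        -(TG p wt (rad N) f - f) - (∑ α ∈ s, a α • clG p (chi α) - TG p wt (rad N) f) := by abel
    rw [h5]
    have h6 := norm_sub_le (-(TG p wt (rad N) f - f)) (∑ α ∈ s, a α • clG p (chi α) - TG p wt (rad N) f)
    rw [norm_neg] at h6
    linarith

/-- an inequality which holds for polynomials holds on the whole space -/
theorem extend_bound (hp : p ≠ ∞) (hw : Good wt) {Λ : Set (ι →₀ ℤ)} (A : LG ι p →L[ℂ] LG ι p) (s : ℝ)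
    (hs : 0 ≤ s) (h : ∀ c : (ι →₀ ℤ) →₀ ℂ, (∀ α ∈ c.support, α ∈ Λ) → ‖A (clG p (tp c))‖ ≤ s * ‖clG p (tp c)‖)
    {f : LG ι p} (hf : f ∈ HG p Λ) : ‖A f‖ ≤ s * ‖f‖ := by
  apply le_of_forall_pos_le_add
  intro ε hε
  have hA : 0 ≤ ‖A‖ := ContinuousLinearMap.opNorm_nonneg _
  have hK : 0 < ‖A‖ + s + 1 := by positivity
  obtain ⟨c, hcΛ, hc⟩ := HG_dense hp hw hf (ε / (‖A‖ + s + 1)) (by positivity)
  have h1 := h c hcΛ
  have h2 : A f = A (clG p (tp c)) + A (f - clG p (tp c)) := by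
    rw [← map_add]
    congr 1
    abel
  rw [h2]
  have h3 := norm_add_le (A (clG p (tp c))) (A (f - clG p (tp c)))
  have h4 := A.le_opNorm (f - clG p (tp c))
  have h5 : ‖clG p (tp c)‖ ≤ ‖f‖ + ‖f - clG p (tp c)‖ := by
    have : clG p (tp c) = f - (f - clG p (tp c)) := by abel
    nth_rewrite 1 [this]
    exact norm_sub_le _ _
  rw [lt_div_iff₀ hK] at hc
  have h6 : s * ‖clG p (tp c)‖ ≤ s * (‖f‖ + ‖f - clG p (tp c)‖) := by gcongr
  nlinarith [norm_nonneg (f - clG p (tp c))]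

theorem coefG_tp (c : (ι →₀ ℤ) →₀ ℂ) (β : ι →₀ ℤ) : coefG p β (clG p (tp c)) = c β := by
  classical
  rw [clG_tp, map_sum]
  by_cases hβ : β ∈ c.support
  · rw [Finset.sum_eq_single β]
    · rw [map_smul, coefG_chi]
      simp
    · intro α _ hα
      rw [map_smul, coefG_chi, if_neg (fun h => hα h.symm), smul_zero]
    · intro h
      exact absurd hβ h
  · rw [Finset.sum_eq_zero]
    · exact (Finsupp.notMem_support_iff.mp hβ).symm
    · intro α hα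
      rw [map_smul, coefG_chi, if_neg, smul_zero]
      rintro rfl
      exact hβ hα

/-- `‖f - T_{r²} f‖ ≤ ‖I - K₀‖ ‖f‖` -/
theorem TG_bound (hp : p ≠ ∞) (hw : Good wt) {Λ : Set (ι →₀ ℤ)} (hΛ : ∀ α ∈ Λ, ∀ i, 0 ≤ α i) {r : ℝ}
    (h0 : 0 ≤ r) (h1 : r < 1) {f : LG ι p} (hf : f ∈ HG p Λ) :
    ‖f - TG p wt (r ^ 2) f‖ ≤ ‖1 - K0 p‖ * ‖f‖ :=
  extend_bound hp hw (1 - TG p wt (r ^ 2)) _ (ContinuousLinearMap.opNorm_nonneg _)
    (fun c hc => anA hp hw h0 h1 c (fun α hα => hΛ α (hc α hα))) hf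

/-- `‖f - f̂(0)‖ ≤ ‖I - K₀‖ ‖f‖` -/
theorem mean_bound (hp : p ≠ ∞) (hw : Good wt) {Λ : Set (ι →₀ ℤ)} (hΛ : ∀ α ∈ Λ, ∀ i, 0 ≤ α i) {f : LG ι p}
    (hf : f ∈ HG p Λ) : ‖f - coefG p 0 f • clG p (chi 0)‖ ≤ ‖1 - K0 p‖ * ‖f‖ := by
  have h := extend_bound hp hw (ContinuousLinearMap.id ℂ (LG ι p) - EG (ι := ι) p 0) ‖1 - K0 p‖
    (ContinuousLinearMap.opNorm_nonneg _) (fun c hc => by
      rw [sub_apply, ContinuousLinearMap.id_apply, EG_apply, coefG_tp]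
      exact anB hp hw c (fun α hα => hΛ α (hc α hα))) hf
  rw [sub_apply, ContinuousLinearMap.id_apply, EG_apply] at h
  exact h

/-- the restricted Poisson means -/
noncomputable def TGH (p : ℝ≥0∞) [Fact (1 ≤ p)] (Λ : Set (ι →₀ ℤ)) (hw : Good wt) {r : ℝ} (h0 : 0 ≤ r)
    (h1 : r < 1) : HG p Λ →L[ℂ] HG p Λ :=
  ((TG p wt r).comp (HG p Λ).subtypeL).codRestrict (HG p Λ) (fun f => TG_mem hw h0 h1 f.2)

theorem TGH_compact (Λ : Set (ι →₀ ℤ)) (hw : Good wt) {r : ℝ} (h0 : 0 ≤ r) (h1 : r < 1) :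
    IsCompactOperator (TGH p Λ hw h0 h1) := by
  have h2 : IsCompactOperator ((TG p wt r).comp (HG p Λ).subtypeL) :=
    (TG_compact hw h0 h1).comp_clm (HG p Λ).subtypeL
  exact h2.codRestrict (fun f => TG_mem hw h0 h1 f.2) (HG_closed Λ)

theorem upperG (hp : p ≠ ∞) (hw : Good wt) {Λ : Set (ι →₀ ℤ)} (hΛ : ∀ α ∈ Λ, ∀ i, 0 ≤ α i) :
    ∃ s ∈ bcapValues (HG p Λ), s ≤ ‖1 - K0 p‖ := by
  let T : ℕ → HG p Λ →L[ℂ] HG p Λ := fun n => TGH p Λ hw (rad_sq_nonneg n) (rad_sq_lt n)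
  have hbd : ∀ n, ‖ContinuousLinearMap.id ℂ (HG p Λ) - T n‖ ≤ ‖1 - K0 p‖ := by
    intro n
    apply ContinuousLinearMap.opNorm_le_bound _ (ContinuousLinearMap.opNorm_nonneg _)
    intro f
    exact TG_bound hp hw hΛ (rad_nonneg n) (rad_lt n) f.2
  have hbdd : BddAbove (Set.range fun n => ‖ContinuousLinearMap.id ℂ (HG p Λ) - T n‖) := by
    refine ⟨‖1 - K0 p‖, ?_⟩
    rintro _ ⟨n, rfl⟩
    exact hbd n
  refine ⟨sSup (Set.range fun n => ‖ContinuousLinearMap.id ℂ (HG p Λ) - T n‖), ?_, ?_⟩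
  · refine ⟨T, fun n => TGH_compact Λ hw _ _, ?_, isLUB_csSup (Set.range_nonempty _) hbdd⟩
    intro f
    rw [tendsto_subtype_rng]
    have h : Tendsto (fun n => rad n ^ 2) atTop (𝓝 1) := by
      have := rad_tendsto.pow 2
      rwa [one_pow] at this
    exact TG_tendsto hp hw (f : LG ι p) rad_sq_nonneg rad_sq_lt h
  · apply csSup_le (Set.range_nonempty _)
    rintro _ ⟨n, rfl⟩
    exact hbd n

end hardy

end Pool.Agent.KS6_66.HpT
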