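import Pool.Agent.KS6_66.HpT.D

/-!
# The lower bound
-/

set_option autoImplicit false

open MeasureTheory AddCircle Filter Topology
open scoped ENNReal
open Pool.Agent.Helper192.Hp

namespace Pool.Agent.KS6_66.HpT

section lower

variable {ι : Type} [Countable ι] {p : ℝ≥0∞} [hp1 : Fact (1 ≤ p)]

/-- composition with `x ↦ Σ α_i x_i` -/
noncomputable def JL (p : ℝ≥0∞) [Fact (1 ≤ p)] {α : ι →₀ ℤ} (hα : α ≠ 0) : LP p →ₗᵢ[ℂ] LG ι p :=
  Lp.compMeasurePreservingₗᵢ ℂ (lin α) (mp_lin hα)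

theorem JL_ae {α : ι →₀ ℤ} (hα : α ≠ 0) (f : LP p) : JL p hα f =ᵐ[muG ι] fun x => f (lin α x) :=
  Lp.coeFn_compMeasurePreserving f (mp_lin hα)

theorem JL_fourier {α : ι →₀ ℤ} (hα : α ≠ 0) (k : ℕ) :
    JL p hα (cl p (fourier (k : ℤ))) = clG p (chi (k • α)) := by
  apply Lp.ext
  have h1 := JL_ae hα (cl p (fourier (k : ℤ)))
  have h2 := (mp_lin hα).quasiMeasurePreserving.ae_eq_comp (cl_ae (p := p) (fourier (k : ℤ)))
  filter_upwards [h1, h2, clG_ae (p := p) (chi (k • α))] with x hx1 hx2 hx3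
  rw [hx1, hx3, chi_nsmul]
  exact hx2

theorem JL_gH {α : ι →₀ ℤ} (hα : α ≠ 0) (N n : ℕ) (c : ℕ → ℂ) :
    JL p hα ((gH p N n c : HardySp p) : LP p) = ∑ k ∈ Finset.range n, c k • clG p (chi ((k * N) • α)) := by
  rw [gH_coe]
  unfold polN
  rw [cl_sum, map_sum]
  apply Finset.sum_congr rfl
  intro k _
  rw [cl_smul, map_smul, JL_fourier hα]

theorem JL_mem (hp : p ≠ ∞) {Λ : Set (ι →₀ ℤ)} {α : ι →₀ ℤ} (hα : α ≠ 0) (hΛ : ∀ k : ℕ, k • α ∈ Λ)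
    (f : HardySp p) : JL p hα (f : LP p) ∈ HG p Λ := by
  have h : JL p hα (f : LP p) ∈ closure (HG p Λ : Set (LG ι p)) := by
    rw [Metric.mem_closure_iff]
    intro ε hε
    obtain ⟨n, c, hc⟩ := gH_dense hp f ε hε
    refine ⟨JL p hα ((gH p 1 (n + 1) c : HardySp p) : LP p), ?_, ?_⟩
    · rw [JL_gH hα]
      apply Submodule.sum_mem
      intro k _
      apply Submodule.smul_mem
      exact chi_mem (hΛ _)
    · rw [dist_eq_norm, ← map_sub, LinearIsometry.norm_map]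
      exact hc
  rwa [(HG_closed Λ).closure_eq] at h

/-- the isometric copy of `H^p` of the circle -/
noncomputable def JH (hp : p ≠ ∞) {Λ : Set (ι →₀ ℤ)} {α : ι →₀ ℤ} (hα : α ≠ 0) (hΛ : ∀ k : ℕ, k • α ∈ Λ) :
    HardySp p →L[ℂ] HG p Λ :=
  ((JL p hα).toContinuousLinearMap.comp (HardySp p).subtypeL).codRestrict (HG p Λ) (fun f => JL_mem hp hα hΛ f)

theorem JH_coe (hp : p ≠ ∞) {Λ : Set (ι →₀ ℤ)} {α : ι →₀ ℤ} (hα : α ≠ 0) (hΛ : ∀ k : ℕ, k • α ∈ Λ)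
    (f : HardySp p) : ((JH hp hα hΛ f : HG p Λ) : LG ι p) = JL p hα (f : LP p) := rfl

theorem JH_norm (hp : p ≠ ∞) {Λ : Set (ι →₀ ℤ)} {α : ι →₀ ℤ} (hα : α ≠ 0) (hΛ : ∀ k : ℕ, k • α ∈ Λ)
    (f : HardySp p) : ‖JH hp hα hΛ f‖ = ‖f‖ := by
  show ‖((JH hp hα hΛ f : HG p Λ) : LG ι p)‖ = _
  rw [JH_coe, LinearIsometry.norm_map]
  rfl

/-- compact operators are small on far dilates of a polynomial of mean zero -/
theorem compact_farY (hp : p ≠ ∞) {Y : Type} [NormedAddCommGroup Y] [NormedSpace ℂ Y] (T : HardySp p →L[ℂ] Y)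
    (hT : IsCompactOperator T) (n : ℕ) (c : ℕ → ℂ) (hc0 : c 0 = 0) (ε : ℝ) (hε : 0 < ε) :
    ∃ N, 0 < N ∧ ‖T (gH p N n c)‖ < ε := by
  by_contra hcon
  push Not at hcon
  let a : ℕ → HardySp p := fun j => gH p (1 + j) n c
  have ha : ∀ j, ε ≤ ‖T (a j)‖ := fun j => hcon _ (by omega)
  have han : ∀ j, ‖a j‖ = ‖cl p (pol n c)‖ := fun j => gH_norm hp (by omega) n c
  have hcomp := hT.isCompact_closure_image_closedBall ‖cl p (pol n c)‖
  have hmem : ∀ j, T (a j) ∈ closure (T '' Metric.closedBall 0 ‖cl p (pol n c)‖) := by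
    intro j
    apply subset_closure
    refine ⟨a j, ?_, rfl⟩
    rw [mem_closedBall_zero_iff, han]
  obtain ⟨y, -, φ, hφ, hy⟩ := hcomp.tendsto_subseq hmem
  have hyε : ε ≤ ‖y‖ := ge_of_tendsto hy.norm (Eventually.of_forall (fun j => ha (φ j)))
  have hces := hy.cesaro_smul
  have hzero : Tendsto (fun M : ℕ => (1 / (M : ℂ)) • ∑ j ∈ Finset.range M, a (φ j)) atTop (𝓝 0) := by
    have h1 : ∀ M : ℕ, (1 / (M : ℂ)) • ∑ j ∈ Finset.range M, a (φ j) =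
        ∑ k ∈ Finset.range n, c k • ((1 / (M : ℂ)) • ∑ j ∈ Finset.range M, eH p (k * (1 + φ j))) := by
      intro M
      simp only [a, gH]
      rw [Finset.sum_comm, Finset.smul_sum]
      apply Finset.sum_congr rfl
      intro k _
      rw [← Finset.smul_sum, smul_comm]
    simp only [h1]
    have h2 : ∀ k ∈ Finset.range n, Tendsto (fun M : ℕ => c k • ((1 / (M : ℂ)) • ∑ j ∈ Finset.range M,
        eH p (k * (1 + φ j)))) atTop (𝓝 0) := by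
      intro k _
      by_cases hk : k = 0
      · subst hk
        rw [hc0]
        simp
      · have h3 := (avg_eH hp (fun j => k * (1 + φ j)) (by
          intro i j hij
          have h4 : 1 + φ i = 1 + φ j := Nat.eq_of_mul_eq_mul_left (Nat.pos_of_ne_zero hk) hij
          exact hφ.injective (by omega))).const_smul (c k)
        rwa [smul_zero] at h3
    have h4 := tendsto_finsetSum (Finset.range n) h2
    rwa [Finset.sum_const_zero] at h4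
  have hTz := (T.continuous.tendsto 0).comp hzero
  rw [map_zero] at hTz
  have heq : (⇑T ∘ fun M : ℕ => (1 / (M : ℂ)) • ∑ j ∈ Finset.range M, a (φ j)) =
      (fun M : ℕ => ((M : ℝ)⁻¹) • ∑ i ∈ Finset.range M, ((⇑T ∘ a) ∘ φ) i) := by
    ext1 M
    show T ((1 / (M : ℂ)) • ∑ j ∈ Finset.range M, a (φ j)) = _
    rw [map_smul, map_sum]
    rw [one_div, RCLike.real_smul_eq_coe_smul (K := ℂ)]
    congr 1
    simp
  rw [heq] at hTz
  have : y = 0 := tendsto_nhds_unique hces hTz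
  rw [this, norm_zero] at hyε
  linarith

theorem lower_polG (hp : p ≠ ∞) {Λ : Set (ι →₀ ℤ)} {α : ι →₀ ℤ} (hα : α ≠ 0) (hΛ : ∀ k : ℕ, k • α ∈ Λ) (s : ℝ)
    (T : ℕ → (HG p Λ →L[ℂ] HG p Λ)) (hT : ∀ j, IsCompactOperator (T j))
    (hstr : ∀ x, Tendsto (fun j => T j x) atTop (𝓝 x)) (hs : ∀ j, ‖ContinuousLinearMap.id ℂ (HG p Λ) - T j‖ ≤ s)
    (n : ℕ) (c : ℕ → ℂ) : ‖gH p 1 (n + 1) c - K0 p (gH p 1 (n + 1) c)‖ ≤ s * ‖gH p 1 (n + 1) c‖ := by
  set c' : ℕ → ℂ := fun k => if k = 0 then 0 else c k with hc'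
  set J := JH hp hα hΛ with hJ
  have hJn : ∀ f, ‖J f‖ = ‖f‖ := fun f => JH_norm hp hα hΛ f
  have hsplit : ∀ N, gH p N (n + 1) c = c 0 • oneH p + gH p N (n + 1) c' := fun N => gH_split N n c
  have h1 : gH p 1 (n + 1) c - K0 p (gH p 1 (n + 1) c) = gH p 1 (n + 1) c' := by
    rw [K0_gH, hsplit 1]
    abel
  rw [h1]
  have h2 : ∀ j, ∀ ε : ℝ, 0 < ε → ‖gH p 1 (n + 1) c'‖ ≤ s * ‖gH p 1 (n + 1) c‖ +
      ‖J (c 0 • oneH p) - T j (J (c 0 • oneH p))‖ + ε := by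
    intro j ε hε
    obtain ⟨N, hN, hTN⟩ := compact_farY hp ((T j).comp J) ((hT j).comp_clm J) (n + 1) c' (by simp [hc']) ε hε
    have h3 : J (gH p N (n + 1) c') = (ContinuousLinearMap.id ℂ (HG p Λ) - T j) (J (gH p N (n + 1) c)) -
        (J (c 0 • oneH p) - T j (J (c 0 • oneH p))) + T j (J (gH p N (n + 1) c')) := by
      show _ = (J (gH p N (n + 1) c) - T j (J (gH p N (n + 1) c))) - _ + _
      rw [hsplit N, map_add, map_add]
      abel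
    have h4 : ‖gH p 1 (n + 1) c'‖ = ‖J (gH p N (n + 1) c')‖ := by
      rw [hJn, gH_norm hp one_pos, gH_norm hp hN]
    have h5 : ‖gH p 1 (n + 1) c‖ = ‖J (gH p N (n + 1) c)‖ := by
      rw [hJn, gH_norm hp one_pos, gH_norm hp hN]
    rw [h4, h3]
    have h6 := norm_add_le ((ContinuousLinearMap.id ℂ (HG p Λ) - T j) (J (gH p N (n + 1) c)) -
      (J (c 0 • oneH p) - T j (J (c 0 • oneH p)))) (T j (J (gH p N (n + 1) c')))
    have h7 := norm_sub_le ((ContinuousLinearMap.id ℂ (HG p Λ) - T j) (J (gH p N (n + 1) c)))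
      (J (c 0 • oneH p) - T j (J (c 0 • oneH p)))
    have h8 := (ContinuousLinearMap.id ℂ (HG p Λ) - T j).le_opNorm (J (gH p N (n + 1) c))
    have h9 : ‖ContinuousLinearMap.id ℂ (HG p Λ) - T j‖ * ‖J (gH p N (n + 1) c)‖ ≤ s * ‖J (gH p N (n + 1) c)‖ := by
      have := hs j
      gcongr
    have h10 : ‖T j (J (gH p N (n + 1) c'))‖ < ε := hTN
    rw [h5]
    linarith
  have h3 : ∀ j, ‖gH p 1 (n + 1) c'‖ ≤ s * ‖gH p 1 (n + 1) c‖ + ‖J (c 0 • oneH p) - T j (J (c 0 • oneH p))‖ := by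
    intro j
    apply le_of_forall_pos_le_add
    intro ε hε
    exact h2 j ε hε
  have h4 : Tendsto (fun j => s * ‖gH p 1 (n + 1) c‖ + ‖J (c 0 • oneH p) - T j (J (c 0 • oneH p))‖) atTop
      (𝓝 (s * ‖gH p 1 (n + 1) c‖ + ‖J (c 0 • oneH p) - J (c 0 • oneH p)‖)) :=
    ((hstr (J (c 0 • oneH p))).const_sub _).norm.const_add _
  rw [sub_self, norm_zero, add_zero] at h4
  exact ge_of_tendsto h4 (Eventually.of_forall h3)

theorem lowerG (hp : p ≠ ∞) {Λ : Set (ι →₀ ℤ)} {α : ι →₀ ℤ} (hα : α ≠ 0) (hΛ : ∀ k : ℕ, k • α ∈ Λ) (s : ℝ)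
    (hs : s ∈ bcapValues (HG p Λ)) : ‖1 - K0 p‖ ≤ s := by
  obtain ⟨T, hT, hstr, hlub⟩ := hs
  have hle : ∀ j, ‖ContinuousLinearMap.id ℂ (HG p Λ) - T j‖ ≤ s := fun j => hlub.1 ⟨j, rfl⟩
  have hs0 : 0 ≤ s := (ContinuousLinearMap.opNorm_nonneg _).trans (hle 0)
  exact opNorm_le_of_pol hp _ s hs0 (fun n c => lower_polG hp hα hΛ s T hT hstr hle n c)

theorem exists_good (ι : Type) [Countable ι] : ∃ wt : ι → ℕ, Good wt := by
  obtain ⟨f, hf⟩ := Countable.exists_injective_nat ι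
  exact ⟨fun i => f i + 1, fun a b h => hf (Nat.succ_injective h), fun i => Nat.succ_pos _⟩

theorem bcapConstG (hp : p ≠ ∞) {Λ : Set (ι →₀ ℤ)} (hΛ0 : ∀ α ∈ Λ, ∀ i, 0 ≤ α i) {α : ι →₀ ℤ} (hα : α ≠ 0)
    (hΛ : ∀ k : ℕ, k • α ∈ Λ) : bcapConst (HG p Λ) = ‖1 - K0 p‖ := by
  obtain ⟨wt, hw⟩ := exists_good ι
  obtain ⟨s, hs, hsle⟩ := upperG hp hw hΛ0
  have hbdd : BddBelow (bcapValues (HG p Λ)) := ⟨‖1 - K0 p‖, fun t ht => lowerG hp hα hΛ t ht⟩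
  apply le_antisymm
  · exact (csInf_le hbdd hs).trans hsle
  · exact le_csInf ⟨s, hs⟩ (fun t ht => lowerG hp hα hΛ t ht)

theorem meanConstG (hp : p ≠ ∞) {Λ : Set (ι →₀ ℤ)} (hΛ0 : ∀ α ∈ Λ, ∀ i, 0 ≤ α i) {α : ι →₀ ℤ} (hα : α ≠ 0)
    (hΛ : ∀ k : ℕ, k • α ∈ Λ) :
    IsLeast {C : ℝ | 0 ≤ C ∧ ∀ f ∈ HG p Λ, ‖f - coefG p 0 f • clG p (chi 0)‖ ≤ C * ‖f‖} ‖1 - K0 p‖ := by
  obtain ⟨wt, hw⟩ := exists_good ι
  refine ⟨⟨ContinuousLinearMap.opNorm_nonneg _, fun f hf => mean_bound hp hw hΛ0 hf⟩, ?_⟩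
  rintro C ⟨hC, h⟩
  apply opNorm_le_of_pol hp _ C hC
  intro n c
  have h1 := h (JL p hα ((gH p 1 (n + 1) c : HardySp p) : LP p)) (JL_mem hp hα hΛ _)
  have h2 : coefG p 0 (JL p hα ((gH p 1 (n + 1) c : HardySp p) : LP p)) = c 0 := by
    classical
    rw [JL_gH hα, map_sum, Finset.sum_eq_single 0]
    · rw [map_smul, coefG_chi, zero_mul, zero_smul, if_pos rfl, smul_eq_mul, mul_one]
    · intro k _ hk
      rw [map_smul, coefG_chi, if_neg, smul_zero]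
      intro h3
      rcases smul_eq_zero.mp h3.symm with h4 | h4
      · simp at h4
        exact hk h4
      · exact hα h4
    · intro h3
      exact absurd (Finset.mem_range.mpr (Nat.succ_pos n)) h3
  have h3 : clG p (chi (ι := ι) 0) = JL p hα (cl p (fourier 0)) := by
    have := JL_fourier (p := p) hα 0
    rw [Nat.cast_zero, zero_smul] at this
    exact this.symm
  rw [h2, h3, ← map_smul, ← map_sub, LinearIsometry.norm_map, LinearIsometry.norm_map] at h1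
  have h4 : (1 - K0 p) (gH p 1 (n + 1) c) = gH p 1 (n + 1) c - c 0 • oneH p := by
    rw [← K0_gH]
    rfl
  rw [h4]
  exact h1

end lower

end Pool.Agent.KS6_66.HpT
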