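import Pool.Agent.KS6_66.HpT.E
import Pool.Graph.R_seed8.Results.MP_984ac2_an.HardyConstant

/-!
# The main theorem in terms of the auxiliary definitions
-/

set_option autoImplicit false

open MeasureTheory AddCircle Filter Topology
open scoped ENNReal
open Pool.Agent.Helper192.Hp

namespace Pool.Agent.KS6_66.HpT

variable {ι : Type} [Countable ι] {p : ℝ≥0∞} [hp1 : Fact (1 ≤ p)]

theorem bcap_isLeast (hp : p ≠ ∞) {Λ : Set (ι →₀ ℤ)} (hΛ0 : ∀ α ∈ Λ, ∀ i, 0 ≤ α i)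
    (hΛ : ∃ α : ι →₀ ℤ, α ≠ 0 ∧ ∀ k : ℕ, k • α ∈ Λ) : IsLeast (bcapValues (HG p Λ)) ‖1 - K0 p‖ := by
  obtain ⟨α, hα, hΛ⟩ := hΛ
  obtain ⟨wt, hw⟩ := exists_good ι
  obtain ⟨s, hs, hsle⟩ := upperG hp hw hΛ0
  have hlow := fun t ht => lowerG (p := p) hp hα hΛ t ht
  have hseq : s = ‖1 - K0 p‖ := le_antisymm hsle (hlow s hs)
  refine ⟨?_, hlow⟩
  rw [hseq] at hs
  exact hs

theorem bcap_isLeast_one (hp : p ≠ ∞) : IsLeast (bcapValues (HardySp p)) ‖1 - K0 p‖ := by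
  obtain ⟨s, hs, hsle⟩ := bcap_mem_le (p := p) hp
  have hlow := fun t ht => bcap_lower (p := p) hp t ht
  have hseq : s = ‖1 - K0 p‖ := le_antisymm hsle (hlow s hs)
  refine ⟨?_, hlow⟩
  rw [hseq] at hs
  exact hs

end Pool.Agent.KS6_66.HpT
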